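import Mathlib

/-!
# A non-bipartite graph whose fully active cop number exceeds its cop number

Let `G` be the graph obtained from the Cartesian product `K₃ □ K₃` by replacing every vertex by
three pairwise non-adjacent copies.  It is connected and not bipartite, two cops win the usual
(passive) game on `G`, and two cops lose the fully active game on `G`.
-/

namespace Pool.Agent.Results.MP_bb83f1_co.ActiveExceedsPassive

section Defs

variable {V : Type*}

/-- `k` cops have a winning strategy, when `M u v` says that a player at `u` may move to `v`.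
A strategy `σ` gives the initial positions `σ []` and, after the robber has been at `r 0, …, r t`,
the next positions `σ [r 0, …, r t]` of the cops.  It is winning if for every sequence `r` of moves
of the robber all moves of the cops are legal, and at some time some cop and the robber are at the
same vertex (after a move of the robber, or after a move of the cops). -/
def CopsWin (M : V → V → Prop) (k : ℕ) : Prop :=
  ∃ σ : List V → Fin k → V, ∀ r : ℕ → V, (∀ t, M (r t) (r (t + 1))) →
    (∀ t i, M (σ ((List.range t).map r) i) (σ ((List.range (t + 1)).map r) i)) ∧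
    ∃ t i, σ ((List.range t).map r) i = r t ∨ σ ((List.range (t + 1)).map r) i = r t

/-- The usual cop number: every player moves along an edge or stays. -/
noncomputable def copNumber (G : SimpleGraph V) : ℕ :=
  sInf {k | CopsWin (fun u v => u = v ∨ G.Adj u v) k}

/-- The fully active cop number: every player moves along an edge. -/
noncomputable def activeCopNumber (G : SimpleGraph V) : ℕ :=
  sInf {k | CopsWin (fun u v => G.Adj u v) k}

end Defs

/-! ### Cops' side: positional strategies with a rank -/

section Rank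

variable {V : Type*}

theorem foldl_range_succ {α : Type*} (f : α → V → α) (a : α) (r : ℕ → V) (t : ℕ) :
    List.foldl f a ((List.range (t + 1)).map r) =
      f (List.foldl f a ((List.range t).map r)) (r t) := by
  rw [List.range_succ, List.map_append, List.foldl_append]
  rfl

/-- A positional strategy that decreases a rank wins. -/
theorem copsWin_of_rank {M : V → V → Prop} {k : ℕ} (c₀ : Fin k → V)
    (next : (Fin k → V) → V → (Fin k → V)) (hM : ∀ c r i, M (c i) (next c r i))
    (rank : (Fin k → V) → V → ℕ)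
    (hdec : ∀ c r r', M r r' → (∃ i, c i = r) ∨ (∃ i, next c r i = r) ∨
      rank (next c r) r' < rank c r) : CopsWin M k := by
  refine ⟨fun h => List.foldl next c₀ h, fun r hr => ⟨fun t i => ?_, ?_⟩⟩
  · show M (List.foldl next c₀ ((List.range t).map r) i)
      (List.foldl next c₀ ((List.range (t + 1)).map r) i)
    rw [foldl_range_succ next c₀ r t]
    exact hM _ _ _
  · by_contra hno
    push Not at hno
    have key : ∀ t, rank (List.foldl next c₀ ((List.range t).map r)) (r t) + t ≤
        rank (List.foldl next c₀ ((List.range 0).map r)) (r 0) := by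
      intro t
      induction t with
      | zero => simp
      | succ t ih =>
        have h := hdec (List.foldl next c₀ ((List.range t).map r)) (r t) (r (t + 1)) (hr t)
        rcases h with ⟨i, h⟩ | ⟨i, h⟩ | h
        · exact absurd h (hno t i).1
        · rw [← foldl_range_succ next c₀ r t] at h
          exact absurd h (hno t i).2
        · rw [foldl_range_succ next c₀ r t]
          omega
    have := key (rank (List.foldl next c₀ ((List.range 0).map r)) (r 0) + 1)
    omega

end Rank

/-! ### The graph -/

/-- The vertices of `K₃ □ K₃`. -/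
abbrev P := ZMod 3 × ZMod 3

/-- Adjacency in `K₃ □ K₃`. -/
def rook (p q : P) : Prop := p ≠ q ∧ (p.1 = q.1 ∨ p.2 = q.2)

instance (p q : P) : Decidable (rook p q) := inferInstanceAs (Decidable (_ ∧ _))

theorem rook_irrefl (p : P) : ¬ rook p p := fun h => h.1 rfl

/-- The graph `K₃ □ K₃` with every vertex replaced by three non-adjacent copies. -/
def G : SimpleGraph (P × Fin 3) where
  Adj a b := rook a.1 b.1
  symm := ⟨fun _ _ h => ⟨h.1.symm, h.2.imp Eq.symm Eq.symm⟩⟩
  loopless := ⟨fun _ h => h.1 rfl⟩

theorem G_connected : G.Connected := by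
  have h : ∀ p q : P, ∃ w, rook p w ∧ (rook w q ∨ ∃ w', rook w w' ∧ rook w' q) := by decide
  refine SimpleGraph.Connected.mk ?_
  rintro ⟨p, i⟩ ⟨q, j⟩
  obtain ⟨w, h1, h2 | ⟨w', h2, h3⟩⟩ := h p q
  · have a1 : G.Adj (p, i) (w, 0) := h1
    have a2 : G.Adj (w, 0) (q, j) := h2
    exact a1.reachable.trans a2.reachable
  · have a1 : G.Adj (p, i) (w, 0) := h1
    have a2 : G.Adj (w, 0) (w', 0) := h2
    have a3 : G.Adj (w', 0) (q, j) := h3
    exact (a1.reachable.trans a2.reachable).trans a3.reachable

theorem G_not_bipartite : ¬ G.Colorable 2 := by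
  rintro ⟨C⟩
  have a1 : G.Adj ((0, 0), 0) ((1, 0), 0) := by show rook _ _; decide
  have a2 : G.Adj ((1, 0), 0) ((2, 0), 0) := by show rook _ _; decide
  have a3 : G.Adj ((0, 0), 0) ((2, 0), 0) := by show rook _ _; decide
  have h1 := C.valid a1
  have h2 := C.valid a2
  have h3 := C.valid a3
  generalize C ((0, 0), 0) = x at *
  generalize C ((1, 0), 0) = y at *
  generalize C ((2, 0), 0) = z at *
  revert x y z
  decide

/-! ### Two cops win the passive game -/

/-- One cop goes towards the robber: capture if possible. -/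
def capt (c r : P × Fin 3) : Prop := c = r ∨ rook c.1 r.1

instance (c r : P × Fin 3) : Decidable (capt c r) := inferInstanceAs (Decidable (_ ∨ _))

/-- Move of the first cop if he cannot capture: stay if he is on a copy of the robber's vertex,
otherwise go to the robber's line with the same second coordinate. -/
def mv0 (c r : P × Fin 3) : P × Fin 3 := if c.1 = r.1 then c else ((c.1.1, r.1.2), 0)

/-- Move of the second cop if he cannot capture. -/
def mv1 (c r : P × Fin 3) : P × Fin 3 := if c.1 = r.1 then c else ((r.1.1, c.1.2), 0)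

/-- Leave the class of the robber. -/
def leave (c : P × Fin 3) : P × Fin 3 := ((c.1.1 + 1, c.1.2), 0)

/-- The strategy of the two cops. -/
def next (c : Fin 2 → P × Fin 3) (r : P × Fin 3) : Fin 2 → P × Fin 3 :=
  if capt (c 0) r then ![r, c 1] else
  if capt (c 1) r then ![c 0, r] else
  if (c 0).1 = r.1 ∧ (c 1).1 = r.1 then ![c 0, leave (c 1)] else
  ![mv0 (c 0) r, mv1 (c 1) r]

/-- The rank at the cops' turn. -/
def rank (c : Fin 2 → P × Fin 3) (r : P × Fin 3) : ℕ :=
  if rook (c 0).1 r.1 ∨ rook (c 1).1 r.1 then 0 else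
  if (c 0).1 = r.1 ∨ (c 1).1 = r.1 then 1 else 2

theorem legal (c : Fin 2 → P × Fin 3) (r : P × Fin 3) (i : Fin 2) :
    c i = next c r i ∨ G.Adj (c i) (next c r i) := by
  have h0 : ∀ c r : P, ¬ (c ≠ r ∧ (c.1 = r.1 ∨ c.2 = r.2)) → c ≠ r →
      rook c (c.1, r.2) ∧ rook c (r.1, c.2) := by decide
  have h1 : ∀ c : P, rook c (c.1 + 1, c.2) := by decide
  unfold next
  split_ifs with a b d
  · fin_cases i
    · exact a.imp id id
    · exact Or.inl rfl
  · fin_cases i
    · exact Or.inl rfl
    · exact b.imp id id
  · fin_cases i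
    · exact Or.inl rfl
    · exact Or.inr (h1 _)
  · fin_cases i
    · show c 0 = mv0 (c 0) r ∨ G.Adj (c 0) (mv0 (c 0) r)
      unfold mv0
      split_ifs with e
      · exact Or.inl rfl
      · exact Or.inr (h0 _ _ (fun h => a (Or.inr h)) e).1
    · show c 1 = mv1 (c 1) r ∨ G.Adj (c 1) (mv1 (c 1) r)
      unfold mv1
      split_ifs with e
      · exact Or.inl rfl
      · exact Or.inr (h0 _ _ (fun h => b (Or.inr h)) e).2

theorem two_cops_win : CopsWin (fun u v => u = v ∨ G.Adj u v) 2 := by
  refine copsWin_of_rank (fun _ => ((0, 0), 0)) next legal rank ?_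
  intro c r r' hr
  by_cases a : capt (c 0) r
  · right; left
    refine ⟨0, ?_⟩
    simp [next, a]
  by_cases b : capt (c 1) r
  · right; left
    refine ⟨1, ?_⟩
    simp [next, a, b]
  right; right
  have hr' : r.1 = r'.1 ∨ rook r.1 r'.1 := hr.imp (fun h => congrArg Prod.fst h) id
  have a' : ¬ rook (c 0).1 r.1 := fun h => a (Or.inr h)
  have b' : ¬ rook (c 1).1 r.1 := fun h => b (Or.inr h)
  by_cases d : (c 0).1 = r.1 ∧ (c 1).1 = r.1
  · have hn : next c r = ![c 0, leave (c 1)] := by simp [next, a, b, d]
    have hrk : rank c r = 1 := by simp [rank, d, rook_irrefl]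
    rw [hn, hrk]
    have key : ∀ p q : P, (p = q ∨ rook p q) → rook p q ∨ rook (p.1 + 1, p.2) q := by decide
    have := key r.1 r'.1 hr'
    have h2 : rank ![c 0, leave (c 1)] r' = 0 := by
      unfold rank
      rw [if_pos]
      show rook (c 0).1 r'.1 ∨ rook ((c 1).1.1 + 1, (c 1).1.2) r'.1
      rw [d.1, d.2]
      exact this
    omega
  · have hn : next c r = ![mv0 (c 0) r, mv1 (c 1) r] := by
      unfold next
      rw [if_neg a, if_neg b, if_neg d]
    rw [hn]
    by_cases e0 : (c 0).1 = r.1
    · have e1 : (c 1).1 ≠ r.1 := fun h => d ⟨e0, h⟩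
      have hrk : rank c r = 1 := by simp [rank, b', e0, rook_irrefl]
      have key : ∀ x p q : P, ¬ rook x p → x ≠ p → (p = q ∨ rook p q) →
          rook p q ∨ rook (p.1, x.2) q := by decide
      have h2 : rank ![mv0 (c 0) r, mv1 (c 1) r] r' = 0 := by
        unfold rank
        rw [if_pos]
        have h3 := key (c 1).1 r.1 r'.1 b' e1 hr'
        simp only [mv0, mv1, e0, e1, if_true, if_false, Matrix.cons_val_zero, Matrix.cons_val_one]
        exact h3
      omega
    · by_cases e1 : (c 1).1 = r.1
      · have hrk : rank c r = 1 := by simp [rank, a', e1, rook_irrefl]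
        have key : ∀ x p q : P, ¬ rook x p → x ≠ p → (p = q ∨ rook p q) →
            rook (x.1, p.2) q ∨ rook p q := by decide
        have h2 : rank ![mv0 (c 0) r, mv1 (c 1) r] r' = 0 := by
          unfold rank
          rw [if_pos]
          have h3 := key (c 0).1 r.1 r'.1 a' e0 hr'
          simp only [mv0, mv1, e0, e1, if_true, if_false, Matrix.cons_val_zero,
            Matrix.cons_val_one]
          exact h3
        omega
      · have hrk : rank c r = 2 := by simp [rank, a', b', e0, e1]
        have key0 : ∀ x p q : P, ¬ rook x p → x ≠ p → (p = q ∨ rook p q) → p.2 = q.2 →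
            rook (x.1, p.2) q ∨ (x.1, p.2) = q := by decide
        have key1 : ∀ y p q : P, ¬ rook y p → y ≠ p → (p = q ∨ rook p q) → p.1 = q.1 →
            rook (p.1, y.2) q ∨ (p.1, y.2) = q := by decide
        have h3 : (rook ((c 0).1.1, r.1.2) r'.1 ∨ rook (r.1.1, (c 1).1.2) r'.1) ∨
            (((c 0).1.1, r.1.2) = r'.1 ∨ (r.1.1, (c 1).1.2) = r'.1) := by
          have h5 : r.1.2 = r'.1.2 ∨ r.1.1 = r'.1.1 := by
            rcases hr' with h | h
            · exact Or.inl (by rw [h])
            · exact h.2.symm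
          rcases h5 with h5 | h5
          · rcases key0 (c 0).1 r.1 r'.1 a' e0 hr' h5 with h6 | h6
            · exact Or.inl (Or.inl h6)
            · exact Or.inr (Or.inl h6)
          · rcases key1 (c 1).1 r.1 r'.1 b' e1 hr' h5 with h6 | h6
            · exact Or.inl (Or.inr h6)
            · exact Or.inr (Or.inr h6)
        have h2 : rank ![mv0 (c 0) r, mv1 (c 1) r] r' ≤ 1 := by
          unfold rank
          simp only [mv0, mv1, e0, e1, if_false, Matrix.cons_val_zero, Matrix.cons_val_one]
          split_ifs with f g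
          · omega
          · omega
          · exact absurd h3 (by push Not; push Not at f g; exact ⟨f, g⟩)
        omega

/-! ### The robber escapes two cops in the fully active game -/

/-- The states of the robber's invariant at the cops' turn, for cops in the classes `p`, `q` and
the robber in the class `r`. -/
def Safe (p q r : P) : Prop :=
  ¬ rook p r ∧ ¬ rook q r ∧ (p = r ∨ q = r ∨ rook p q)

instance (p q r : P) : Decidable (Safe p q r) := inferInstanceAs (Decidable (_ ∧ _))

theorem safe_start : ∀ p q : P, ∃ r, Safe p q r := by decide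

theorem safe_step_aux : ∀ p q p' q' : P, Safe p q 0 → rook p p' → rook q q' →
    p' ≠ 0 ∧ q' ≠ 0 ∧ ∃ r', rook 0 r' ∧ Safe p' q' r' := by decide

theorem rook_sub (p q r : P) : rook (p - r) (q - r) ↔ rook p q := by
  simp only [rook, Prod.fst_sub, Prod.snd_sub, sub_left_inj, ne_eq]

theorem safe_sub (p q r s : P) : Safe (p - s) (q - s) (r - s) ↔ Safe p q r := by
  simp only [Safe, rook_sub, sub_left_inj]

theorem safe_step (p q p' q' r : P) (h : Safe p q r) (hp : rook p p') (hq : rook q q') :
    p' ≠ r ∧ q' ≠ r ∧ ∃ r', rook r r' ∧ Safe p' q' r' := by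
  have h0 : Safe (p - r) (q - r) 0 := by
    have := (safe_sub p q r r).2 h
    rwa [sub_self] at this
  obtain ⟨h1, h2, s, hs, hs'⟩ := safe_step_aux _ _ _ _ h0 ((rook_sub p p' r).2 hp)
    ((rook_sub q q' r).2 hq)
  refine ⟨fun h => h1 (by rw [h, sub_self]), fun h => h2 (by rw [h, sub_self]), s + r, ?_, ?_⟩
  · rw [← rook_sub _ _ r]
    simpa using hs
  · rw [← safe_sub _ _ _ r]
    simpa using hs'

theorem exists_copy (a b : P × Fin 3) (r : P) : ∃ i : Fin 3, a ≠ (r, i) ∧ b ≠ (r, i) := by
  have h : ∀ x y : Fin 3, ∃ i, x ≠ i ∧ y ≠ i := by decide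
  obtain ⟨i, hi, hj⟩ := h a.2 b.2
  exact ⟨i, fun h => hi (by rw [h]), fun h => hj (by rw [h])⟩

theorem not_copsWin_two : ¬ CopsWin (fun u v => G.Adj u v) 2 := by
  rintro ⟨σ, hσ⟩
  -- start
  obtain ⟨p0, hp0⟩ := safe_start (σ [] 0).1 (σ [] 1).1
  obtain ⟨i0, hi0, hi0'⟩ := exists_copy (σ [] 0) (σ [] 1) p0
  -- response
  have hresp : ∀ (c : Fin 2 → P × Fin 3) (r : P × Fin 3), ∃ u : P × Fin 3, G.Adj r u ∧
      ((∃ r', rook r.1 r' ∧ Safe (c 0).1 (c 1).1 r') →
        Safe (c 0).1 (c 1).1 u.1 ∧ c 0 ≠ u ∧ c 1 ≠ u) := by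
    intro c r
    by_cases h : ∃ r', rook r.1 r' ∧ Safe (c 0).1 (c 1).1 r'
    · obtain ⟨r', h1, h2⟩ := h
      obtain ⟨i, hi, hi'⟩ := exists_copy (c 0) (c 1) r'
      exact ⟨(r', i), h1, fun _ => ⟨h2, hi, hi'⟩⟩
    · have : ∀ c : P, rook c (c.1 + 1, c.2) := by decide
      exact ⟨((r.1.1 + 1, r.1.2), 0), this _, fun h' => absurd h' h⟩
  choose f hf1 hf2 using hresp
  let pl : ℕ → List (P × Fin 3) × (P × Fin 3) := fun t => Nat.rec ([], (p0, i0))
    (fun _ s => (s.1 ++ [s.2], f (σ (s.1 ++ [s.2])) s.2)) t
  have pl_succ : ∀ t, pl (t + 1) =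
      ((pl t).1 ++ [(pl t).2], f (σ ((pl t).1 ++ [(pl t).2])) (pl t).2) := fun t => rfl
  set r : ℕ → P × Fin 3 := fun t => (pl t).2 with hr
  have hhist : ∀ t, (List.range t).map r = (pl t).1 := by
    intro t
    induction t with
    | zero => rfl
    | succ t ih =>
      rw [List.range_succ, List.map_append, ih, pl_succ]
      rfl
  have hstep : ∀ t, r (t + 1) = f (σ ((List.range (t + 1)).map r)) (r t) := by
    intro t
    rw [hhist (t + 1)]
  obtain ⟨hlegal, t, i, hcap⟩ := hσ r (fun t => by rw [hstep]; exact hf1 _ _)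
  have hinv : ∀ t, Safe (σ ((List.range t).map r) 0).1 (σ ((List.range t).map r) 1).1 (r t).1 ∧
      σ ((List.range t).map r) 0 ≠ r t ∧ σ ((List.range t).map r) 1 ≠ r t := by
    intro t
    induction t with
    | zero => exact ⟨hp0, hi0, hi0'⟩
    | succ t ih =>
      obtain ⟨-, -, h3⟩ := safe_step _ _ _ _ _ ih.1 (hlegal t 0) (hlegal t 1)
      have := hf2 (σ ((List.range (t + 1)).map r)) (r t) h3
      rw [← hstep] at this
      exact this
  have hinv' : ∀ t, (σ ((List.range (t + 1)).map r) 0).1 ≠ (r t).1 ∧
      (σ ((List.range (t + 1)).map r) 1).1 ≠ (r t).1 := by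
    intro t
    obtain ⟨h1, h2, -⟩ := safe_step _ _ _ _ _ (hinv t).1 (hlegal t 0) (hlegal t 1)
    exact ⟨h1, h2⟩
  fin_cases i
  · rcases hcap with h | h
    · exact (hinv t).2.1 h
    · exact (hinv' t).1 (congrArg Prod.fst h)
  · rcases hcap with h | h
    · exact (hinv t).2.2 h
    · exact (hinv' t).2 (congrArg Prod.fst h)

/-- A neighbour of a vertex. -/
def nb (v : P × Fin 3) : P × Fin 3 := ((v.1.1 + 1, v.1.2), 0)

theorem adj_nb (v : P × Fin 3) : G.Adj v (nb v) := by
  have : ∀ c : P, rook c (c.1 + 1, c.2) := by decide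
  exact this v.1

/-- With sufficiently many cops the fully active game is won by the cops. -/
theorem copsWin_card : CopsWin (fun u v => G.Adj u v) (Fintype.card (P × Fin 3)) := by
  classical
  let e := (Fintype.equivFin (P × Fin 3)).symm
  refine ⟨fun h i => if Even h.length then e i else nb (e i), fun r _ =>
    ⟨fun t i => ?_, 0, e.symm (r 0), Or.inl ?_⟩⟩
  · simp only [List.length_map, List.length_range]
    by_cases h : Even t
    · have h' : ¬ Even (t + 1) := by
        rw [Nat.not_even_iff_odd]
        exact h.add_one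
      rw [if_pos h, if_neg h']
      exact adj_nb _
    · have h' : Even (t + 1) := (Nat.not_even_iff_odd.1 h).add_one
      rw [if_neg h, if_pos h']
      exact (adj_nb _).symm
  · simp

theorem CopsWin.of_surjective {V : Type*} {M : V → V → Prop} {k m : ℕ} (h : CopsWin M k)
    (φ : Fin m → Fin k) (hφ : Function.Surjective φ) : CopsWin M m := by
  obtain ⟨σ, hσ⟩ := h
  refine ⟨fun l i => σ l (φ i), fun r hr => ?_⟩
  obtain ⟨h1, t, i, h2⟩ := hσ r hr
  obtain ⟨j, rfl⟩ := hφ i
  exact ⟨fun t i => h1 t (φ i), t, j, h2⟩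

theorem three_le : 3 ≤ activeCopNumber G := by
  have hmem' : activeCopNumber G ∈ {k | CopsWin (fun u v => G.Adj u v) k} :=
    Nat.sInf_mem ⟨_, copsWin_card⟩
  have hmem : CopsWin (fun u v => G.Adj u v) (activeCopNumber G) := hmem'
  by_contra hlt
  have h : activeCopNumber G = 0 ∨ activeCopNumber G = 1 ∨ activeCopNumber G = 2 := by omega
  rcases h with h | h | h
  · rw [h] at hmem
    obtain ⟨σ, hσ⟩ := hmem
    obtain ⟨-, t, i, -⟩ := hσ (fun t => nb^[t] ((0, 0), 0)) (fun t => by
      rw [Function.iterate_succ_apply']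
      exact adj_nb _)
    exact i.elim0
  · rw [h] at hmem
    exact not_copsWin_two
      (hmem.of_surjective (fun _ => 0) (fun i => ⟨0, (Fin.fin_one_eq_zero i).symm⟩))
  · rw [h] at hmem
    exact not_copsWin_two hmem

/-- **There is a finite connected non-bipartite graph whose fully active cop number is larger than
its cop number.** -/
theorem result : ∃ (V : Type) (_ : Fintype V) (G : SimpleGraph V), G.Connected ∧
    ¬ G.Colorable 2 ∧ copNumber G ≤ 2 ∧ 3 ≤ activeCopNumber G ∧
      copNumber G < activeCopNumber G := by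
  have h1 : copNumber G ≤ 2 := Nat.sInf_le two_cops_win
  exact ⟨P × Fin 3, inferInstance, G, G_connected, G_not_bipartite, h1, three_le,
    h1.trans_lt (by have := three_le; omega)⟩

end Pool.Agent.Results.MP_bb83f1_co.ActiveExceedsPassive
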